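import Pool.Agent.Lib.MP_f73729_an.Alpha
import Pool.Agent.Lib.MP_f73729_an.Reduce

/-!
# Hölder continuous Besicovitch cocycles and the best approximation denominators

Let `φ` be `γ`-Hölder and let the cylindrical transformation over the rotation by `α` have a dense
orbit and a discrete orbit.  Then `limsup q^{1/γ} ‖qα‖ = ∞` along the best approximation
denominators `q` of `α`, and for `τ > 1/γ` each window `[Q, Q^K]`, with `Q` large and `K` depending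
on `γ` and `τ` only, contains a best approximation denominator `q` with `‖qα‖ > q^{-τ}`.
If `c q^{-τ} ≤ ‖qα‖ ≤ A q^{-τ}` for all best approximation denominators of `α`, then such a `φ`
exists if and only if `γ < 1/τ`.  So each `s` in `(0, 1]` is the critical exponent of some rotation.
-/

set_option autoImplicit false

namespace Pool.Agent.Results.MP_f73729_an.BestDenominators

open Filter Topology

/-- The cylindrical transformation `(x, y) ↦ (x + α, y + φ x)` of `𝕋 × ℝ`. -/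
noncomputable def cyl (α : ℝ) (φ : UnitAddCircle → ℝ) : Equiv.Perm (UnitAddCircle × ℝ) where
  toFun p := (p.1 + (α : UnitAddCircle), p.2 + φ p.1)
  invFun p := (p.1 - (α : UnitAddCircle), p.2 - φ (p.1 - (α : UnitAddCircle)))
  left_inv p := by ext <;> simp
  right_inv p := by ext <;> simp

/-- The two-sided orbit of `p`. -/
noncomputable def orbit (α : ℝ) (φ : UnitAddCircle → ℝ) (p : UnitAddCircle × ℝ) :
    Set (UnitAddCircle × ℝ) :=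
  Set.range fun n : ℤ => (cyl α φ ^ n) p

/-- `φ` is continuous, some orbit is dense in `𝕋 × ℝ` and some orbit has no accumulation point. -/
def Besicovitch (α : ℝ) (φ : UnitAddCircle → ℝ) : Prop :=
  Continuous φ ∧ (∃ p, Dense (orbit α φ p)) ∧ ∃ p, ∀ z, ¬ AccPt z (𝓟 (orbit α φ p))

/-- `φ` is `γ`-Hölder. -/
def Hoelder (γ : ℝ) (φ : UnitAddCircle → ℝ) : Prop :=
  ∃ C : ℝ, ∀ x x' : UnitAddCircle, |φ x - φ x'| ≤ C * ‖x - x'‖ ^ γ

/-- The distance of `q α` to the nearest integer. -/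
noncomputable def nint (α : ℝ) (q : ℕ) : ℝ := ‖(((q : ℝ) * α : ℝ) : UnitAddCircle)‖

/-- `q ≥ 1` is a best approximation denominator: `‖qα‖ < ‖mα‖` for `1 ≤ m < q`. -/
def Best (α : ℝ) (q : ℕ) : Prop := 1 ≤ q ∧ ∀ m : ℕ, 1 ≤ m → m < q → nint α q < nint α m

theorem nint_eq (α : ℝ) (q : ℕ) : nint α q = ‖q • (α : UnitAddCircle)‖ := by
  rw [nint, ← nsmul_eq_mul, AddCircle.coe_nsmul]

theorem best_iff (α : ℝ) (q : ℕ) : Best α q ↔ Lib.MP_f73729_an.IsRec α q := by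
  simp only [Best, Lib.MP_f73729_an.IsRec, nint_eq]

theorem limsup_part (γ α : ℝ) (φ : UnitAddCircle → ℝ) (hγ : 0 < γ) (hγ1 : γ ≤ 1)
    (hα : Irrational α) (hφ : Hoelder γ φ) (hB : Besicovitch α φ) (A : ℝ) (Q : ℕ) :
    ∃ q : ℕ, Q ≤ q ∧ Best α q ∧ A / (q : ℝ) ^ (1 / γ) < nint α q := by
  obtain ⟨ψ, C, x, hC, h, hz, hinf⟩ :=
    Lib.MP_f73729_an.reduce α hα φ γ hγ hφ ⟨hB.2.1, hB.2.2⟩
  obtain ⟨q, h1, h2, h3⟩ := Lib.MP_f73729_an.crit_main α hα ψ C γ hC hγ hγ1 h hz x hinf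
    (max A 1) (le_max_right _ _) Q
  refine ⟨q, h1, (best_iff α q).2 h2, ?_⟩
  rw [nint_eq]
  refine lt_of_le_of_lt ?_ h3
  have hq0 : (0 : ℝ) < q := by exact_mod_cast h2.1
  rw [Real.rpow_neg hq0.le, div_eq_mul_inv]
  exact mul_le_mul_of_nonneg_right (le_max_left _ _) (by positivity)

theorem window_part (γ τ : ℝ) (hγ : 0 < γ) (hγ1 : γ ≤ 1) (hτ : 1 / γ < τ) :
    ∃ K : ℝ, ∀ (α : ℝ) (φ : UnitAddCircle → ℝ), Irrational α → Hoelder γ φ → Besicovitch α φ →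
      ∃ Q₀ : ℕ, ∀ Q : ℕ, Q₀ ≤ Q → ∃ q : ℕ, Q ≤ q ∧ (q : ℝ) ≤ (Q : ℝ) ^ K ∧
        Best α q ∧ 1 / (q : ℝ) ^ τ < nint α q := by
  refine ⟨Lib.MP_f73729_an.winExp γ τ, fun α φ hα hφ hB => ?_⟩
  have hτγ : 1 < τ * γ := by rwa [div_lt_iff₀ hγ] at hτ
  obtain ⟨ψ, C, x, hC, h, hz, hinf⟩ :=
    Lib.MP_f73729_an.reduce α hα φ γ hγ hφ ⟨hB.2.1, hB.2.2⟩
  obtain ⟨n₀, hpos⟩ := hinf 1
  obtain ⟨Q₀, hQ₀⟩ :=
    Lib.MP_f73729_an.window_main α hα ψ C γ hC hγ hγ1 h hz x n₀ hpos τ hτγ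
  refine ⟨Q₀, fun Q hQ => ?_⟩
  obtain ⟨q, h1, h2, h3, h4⟩ := hQ₀ Q hQ
  refine ⟨q, h1, h2, (best_iff α q).2 h3, ?_⟩
  have hq0 : (0 : ℝ) < q := by exact_mod_cast h3.1
  rw [nint_eq, one_div, ← Real.rpow_neg hq0.le]
  exact h4

theorem exact_part (α τ c A : ℝ) (hα : Irrational α) (hτ : 1 ≤ τ) (hc : 0 < c)
    (h : ∀ q : ℕ, Best α q → c / (q : ℝ) ^ τ ≤ nint α q ∧ nint α q ≤ A / (q : ℝ) ^ τ)
    (γ : ℝ) (hγ : 0 < γ) (hγ1 : γ ≤ 1) :
    (∃ φ, Hoelder γ φ ∧ Besicovitch α φ) ↔ γ < 1 / τ := by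
  have hτ0 : 0 < τ := by linarith
  constructor
  · rintro ⟨φ, hφ, hB⟩
    by_contra hcon
    push Not at hcon
    have hγτ : 1 / γ ≤ τ := by
      rw [div_le_iff₀ hτ0] at hcon
      rw [div_le_iff₀ hγ]
      linarith
    obtain ⟨q, -, h2, h3⟩ := limsup_part γ α φ hγ hγ1 hα hφ hB (max A 1) 0
    have h4 := (h q h2).2
    have hq1 : (1 : ℝ) ≤ q := by exact_mod_cast h2.1
    have h5 : A / (q : ℝ) ^ τ ≤ max A 1 / (q : ℝ) ^ (1 / γ) := by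
      have h6 : (q : ℝ) ^ (1 / γ) ≤ (q : ℝ) ^ τ := Real.rpow_le_rpow_of_exponent_le hq1 hγτ
      calc A / (q : ℝ) ^ τ ≤ max A 1 / (q : ℝ) ^ τ :=
            div_le_div_of_nonneg_right (le_max_left _ _) (by positivity)
        _ ≤ max A 1 / (q : ℝ) ^ (1 / γ) :=
            div_le_div_of_nonneg_left (le_trans zero_le_one (le_max_right _ _))
              (by positivity) h6
    linarith
  · intro hγτ
    have hτγ : τ * γ < 1 := by
      rw [lt_div_iff₀ hτ0] at hγτ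
      linarith
    obtain ⟨φ, hc1, hB, hH⟩ := Lib.MP_f73729_an.main α hα
    refine ⟨φ, ?_, hc1, hB.1, hB.2⟩
    refine hH τ γ hγ hγ1 hτγ ⟨c, hc, fun q hq => ?_⟩
    refine Lib.MP_f73729_an.lower_all α τ c hτ0.le hc (fun r hr => ?_) q hq
    rw [← nint_eq]
    exact (h r ((best_iff α r).2 hr)).1

theorem spectrum_part (s : ℝ) (hs : 0 < s) (hs1 : s ≤ 1) : ∃ α : ℝ, Irrational α ∧
    ∀ γ : ℝ, 0 < γ → γ ≤ 1 → ((∃ φ, Hoelder γ φ ∧ Besicovitch α φ) ↔ γ < s) := by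
  have hτ : 1 ≤ 1 / s := by rwa [le_div_iff₀ hs, one_mul]
  obtain ⟨α, hα, h⟩ := Lib.MP_f73729_an.exists_regular (1 / s) hτ
  refine ⟨α, hα, fun γ hγ hγ1 => ?_⟩
  have h1 := exact_part α (1 / s) (1 / 4) 1 hα hτ (by norm_num)
    (fun q hq => by rw [nint_eq]; exact h q ((best_iff α q).1 hq)) γ hγ hγ1
  rwa [one_div_one_div] at h1

/-- (1) `limsup q^{1/γ} ‖qα‖ = ∞` along the best denominators, (2) every long window contains a
best denominator that is not too good, (3) the exact Hölder exponent for regular `α`, (4) every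
`s` in `(0, 1]` is the exact exponent of some `α`. -/
theorem result :
    (∀ (γ α : ℝ) (φ : UnitAddCircle → ℝ), 0 < γ → γ ≤ 1 → Irrational α → Hoelder γ φ →
      Besicovitch α φ → ∀ (A : ℝ) (Q : ℕ), ∃ q : ℕ, Q ≤ q ∧ Best α q ∧
        A / (q : ℝ) ^ (1 / γ) < nint α q) ∧
    (∀ γ τ : ℝ, 0 < γ → γ ≤ 1 → 1 / γ < τ → ∃ K : ℝ, ∀ (α : ℝ) (φ : UnitAddCircle → ℝ),
      Irrational α → Hoelder γ φ → Besicovitch α φ →
        ∃ Q₀ : ℕ, ∀ Q : ℕ, Q₀ ≤ Q → ∃ q : ℕ, Q ≤ q ∧ (q : ℝ) ≤ (Q : ℝ) ^ K ∧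
          Best α q ∧ 1 / (q : ℝ) ^ τ < nint α q) ∧
    (∀ α τ c A : ℝ, Irrational α → 1 ≤ τ → 0 < c →
      (∀ q : ℕ, Best α q → c / (q : ℝ) ^ τ ≤ nint α q ∧ nint α q ≤ A / (q : ℝ) ^ τ) →
      ∀ γ : ℝ, 0 < γ → γ ≤ 1 → ((∃ φ, Hoelder γ φ ∧ Besicovitch α φ) ↔ γ < 1 / τ)) ∧
    (∀ s : ℝ, 0 < s → s ≤ 1 → ∃ α : ℝ, Irrational α ∧
      ∀ γ : ℝ, 0 < γ → γ ≤ 1 → ((∃ φ, Hoelder γ φ ∧ Besicovitch α φ) ↔ γ < s)) :=
  ⟨fun γ α φ hγ hγ1 hα hφ hB A Q => limsup_part γ α φ hγ hγ1 hα hφ hB A Q,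
    fun γ τ hγ hγ1 hτ => window_part γ τ hγ hγ1 hτ,
    fun α τ c A hα hτ hc h γ hγ hγ1 => exact_part α τ c A hα hτ hc h γ hγ hγ1,
    fun s hs hs1 => spectrum_part s hs hs1⟩

end Pool.Agent.Results.MP_f73729_an.BestDenominators
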