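import Pool.Agent.Lib.MP_f73729_an.Sharp
import Pool.Agent.Lib.MP_f73729_an.Suff
import Pool.Agent.Lib.MP_f73729_an.NecE
import Pool.Agent.Lib.MP_f73729_an.Reduce

/-!
# The critical Hölder exponent of Besicovitch cocycles over an arbitrary irrational rotation

Let `q_0 < q_1 < ...` be the best approximation denominators of `α`.  Call `γ` `A`-admissible if
for some `a` the numbers `M_a = A`, `M_{k+1} = max (M_k, M_k (M_k / q_k)^{1/γ} q_{k+1})`, `k ≥ a`,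
satisfy `M_k ≤ q_k^{1-γ}`.  If `γ'` is `1`-admissible there is for every `γ < γ'` a `γ`-Hölder `φ`
such that the cylindrical transformation over the rotation by `α` has a dense orbit and a discrete
orbit; if there is such a `φ` for `γ`, then `γ` is `A`-admissible for all `A ≥ 1`.  So the supremum
of the Hölder exponents is the supremum of the `1`-admissible numbers, for every irrational `α`.
For `0 < γ < 1` and `1 < τ < 1/γ²` there are an irrational `α` with `‖qα‖ ≥ c q^{-τ}` for all `q`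
and `‖qα‖ ≤ q^{-τ}` for infinitely many `q`, and such a `φ`.
-/

set_option autoImplicit false

namespace Pool.Agent.Results.MP_f73729_an.CriticalExponent

open Filter Topology

/-- The cylindrical transformation `(x, y) ↦ (x + α, y + φ x)` of `𝕋 × ℝ`. -/
noncomputable def cyl (α : ℝ) (φ : UnitAddCircle → ℝ) : Equiv.Perm (UnitAddCircle × ℝ) where
  toFun p := (p.1 + (α : UnitAddCircle), p.2 + φ p.1)
  invFun p := (p.1 - (α : UnitAddCircle), p.2 - φ (p.1 - (α : UnitAddCircle)))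
  left_inv p := by ext <;> simp
  right_inv p := by ext <;> simp

/-- The two-sided orbit of `p`. -/
noncomputable def orbit (α : ℝ) (φ : UnitAddCircle → ℝ) (p : UnitAddCircle × ℝ) :
    Set (UnitAddCircle × ℝ) :=
  Set.range fun n : ℤ => (cyl α φ ^ n) p

/-- `φ` is continuous, some orbit is dense in `𝕋 × ℝ` and some orbit has no accumulation point. -/
def Besicovitch (α : ℝ) (φ : UnitAddCircle → ℝ) : Prop :=
  Continuous φ ∧ (∃ p, Dense (orbit α φ p)) ∧ ∃ p, ∀ z, ¬ AccPt z (𝓟 (orbit α φ p))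

/-- `φ` is `γ`-Hölder. -/
def Hoelder (γ : ℝ) (φ : UnitAddCircle → ℝ) : Prop :=
  ∃ C : ℝ, ∀ x x' : UnitAddCircle, |φ x - φ x'| ≤ C * ‖x - x'‖ ^ γ

/-- The distance of `q α` to the nearest integer. -/
noncomputable def nint (α : ℝ) (q : ℕ) : ℝ := ‖(((q : ℝ) * α : ℝ) : UnitAddCircle)‖

/-- `q ≥ 1` is a best approximation denominator: `‖qα‖ < ‖mα‖` for `1 ≤ m < q`. -/
def Best (α : ℝ) (q : ℕ) : Prop := 1 ≤ q ∧ ∀ m : ℕ, 1 ≤ m → m < q → nint α q < nint α m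

/-- The best approximation denominators in increasing order. -/
noncomputable def bd (α : ℝ) (k : ℕ) : ℕ := Nat.nth (Best α) k

/-- `M 0 = A`, `M (j+1) = max (M j) (M j * (M j / q_k)^{1/γ} * q_{k+1})` with `k = a + j`. -/
noncomputable def M (γ α A : ℝ) (a : ℕ) : ℕ → ℝ
  | 0 => A
  | j + 1 => max (M γ α A a j)
      (M γ α A a j * (M γ α A a j / bd α (a + j)) ^ (1 / γ) * bd α (a + j + 1))

/-- For some starting index `a` the recursion stays below `q_k^{1-γ}`. -/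
def Admissible (γ α A : ℝ) : Prop := ∃ a : ℕ, ∀ j : ℕ, M γ α A a j ≤ (bd α (a + j) : ℝ) ^ (1 - γ)

theorem norm_eq (α : ℝ) (q : ℕ) :
    ‖(((q : ℝ) * α : ℝ) : UnitAddCircle)‖ = ‖q • (α : UnitAddCircle)‖ := by
  rw [← nsmul_eq_mul, AddCircle.coe_nsmul]

theorem nint_eq (α : ℝ) (q : ℕ) : nint α q = ‖q • (α : UnitAddCircle)‖ := norm_eq α q

theorem best_iff (α : ℝ) (q : ℕ) : Best α q ↔ Lib.MP_f73729_an.IsRec α q := by
  simp only [Best, Lib.MP_f73729_an.IsRec, nint_eq]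

theorem infinite_best (α : ℝ) (hα : Irrational α) : {q | Best α q}.Infinite := by
  rw [Set.infinite_iff_exists_gt]
  intro n
  obtain ⟨q, hq1, hq2⟩ := Lib.MP_f73729_an.rec_unbounded α hα (n + 1)
  exact ⟨q, (best_iff α q).2 hq2, by omega⟩

theorem bd_consec (α : ℝ) (hα : Irrational α) (k : ℕ) :
    Lib.MP_f73729_an.Consec α (bd α k) (bd α (k + 1)) := by
  have hinf := infinite_best α hα
  refine Lib.MP_f73729_an.consec_of_enum α hα (bd α) (Nat.nth_strictMono hinf) (fun r => ?_) k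
  rw [← best_iff]
  have h1 := Nat.range_nth_of_infinite hinf
  constructor
  · intro hr
    have h2 : r ∈ Set.range (Nat.nth (Best α)) := by rw [h1]; exact hr
    exact h2
  · intro hr
    have h2 : r ∈ Set.range (Nat.nth (Best α)) := hr
    rw [h1] at h2
    exact h2

theorem M_eq (γ α : ℝ) (a j : ℕ) : M γ α 1 a j = Lib.MP_f73729_an.mseq γ (bd α) a j := by
  induction j with
  | zero => rfl
  | succ j ih => rw [Lib.MP_f73729_an.mseq_succ, ← ih]; rfl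

theorem M_eq' (γ α A : ℝ) (a j : ℕ) : M γ α A a j = Lib.MP_f73729_an.mseqA γ (bd α) A a j := by
  induction j with
  | zero => rfl
  | succ j ih => rw [Lib.MP_f73729_an.mseqA_succ, ← ih]; rfl

theorem adm_iff (γ α : ℝ) : Admissible γ α 1 ↔ Lib.MP_f73729_an.Adm γ (bd α) := by
  simp only [Admissible, Lib.MP_f73729_an.Adm, M_eq]

theorem existence (α γ γ' : ℝ) (hα : Irrational α) (hγ : 0 < γ) (hγγ : γ < γ') (hγ' : γ' < 1)
    (h : Admissible γ' α 1) : ∃ φ, Hoelder γ φ ∧ Besicovitch α φ := by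
  obtain ⟨φ, h1, h2, h3, h4⟩ := Lib.MP_f73729_an.suff α hα γ γ' hγ hγγ hγ' (bd α)
    (bd_consec α hα) ((adm_iff γ' α).1 h)
  exact ⟨φ, h2, h1, h3, h4⟩

theorem necessity (α γ : ℝ) (φ : UnitAddCircle → ℝ) (hα : Irrational α) (hγ : 0 < γ)
    (hγ1 : γ ≤ 1) (hφ : Hoelder γ φ) (hB : Besicovitch α φ) (A : ℝ) (hA : 1 ≤ A) :
    Admissible γ α A := by
  obtain ⟨ψ, C, x, hC, h, hz, hinf⟩ :=
    Lib.MP_f73729_an.reduce α hα φ γ hγ hφ ⟨hB.2.1, hB.2.2⟩
  obtain ⟨a, ha⟩ := Lib.MP_f73729_an.necE α hα ψ C γ hC hγ hγ1 h hz x hinf (bd α)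
    (bd_consec α hα) A hA
  exact ⟨a, fun j => by rw [M_eq']; exact ha j⟩

theorem optimal (γ τ : ℝ) (hγ : 0 < γ) (hγ1 : γ < 1) (hτ1 : 1 < τ) (hτ : τ < 1 / γ ^ 2) :
    ∃ (α : ℝ) (φ : UnitAddCircle → ℝ), Irrational α ∧
      (∃ c > 0, ∀ q : ℕ, 0 < q →
        c / (q : ℝ) ^ τ ≤ ‖(((q : ℝ) * α : ℝ) : UnitAddCircle)‖) ∧
      (∀ N : ℕ, ∃ q : ℕ, N ≤ q ∧
        ‖(((q : ℝ) * α : ℝ) : UnitAddCircle)‖ ≤ 1 / (q : ℝ) ^ τ) ∧
      Hoelder γ φ ∧ Besicovitch α φ := by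
  have h3 : τ * γ ^ 2 < 1 := by
    rwa [lt_div_iff₀ (by positivity)] at hτ
  obtain ⟨α, φ, hα, ⟨c, hc, hlow⟩, hq, hcont, hH, hd, hp⟩ :=
    Lib.MP_f73729_an.sharp γ τ hγ hγ1 hτ1 h3
  refine ⟨α, φ, hα, ⟨c, hc, fun q hq' => ?_⟩, fun N => ?_, hH, hcont, hd, hp⟩
  · rw [norm_eq]
    exact hlow q hq'
  · obtain ⟨q, hq1, hq2⟩ := hq N
    refine ⟨q, hq1, ?_⟩
    rw [norm_eq]
    exact hq2

/-- (1) and (2): the supremum of the Hölder exponents is the supremum of the `1`-admissible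
numbers, for every irrational `α`; (3): the exponent `1/γ²` is optimal. -/
theorem result :
    (∀ α γ γ' : ℝ, Irrational α → 0 < γ → γ < γ' → γ' < 1 → Admissible γ' α 1 →
      ∃ φ, Hoelder γ φ ∧ Besicovitch α φ) ∧
    (∀ (α γ : ℝ) (φ : UnitAddCircle → ℝ), Irrational α → 0 < γ → γ ≤ 1 →
      Hoelder γ φ → Besicovitch α φ → ∀ A : ℝ, 1 ≤ A → Admissible γ α A) ∧
    (∀ γ τ : ℝ, 0 < γ → γ < 1 → 1 < τ → τ < 1 / γ ^ 2 →
      ∃ (α : ℝ) (φ : UnitAddCircle → ℝ), Irrational α ∧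
        (∃ c > 0, ∀ q : ℕ, 0 < q → c / (q : ℝ) ^ τ ≤ nint α q) ∧
        (∀ N : ℕ, ∃ q : ℕ, N ≤ q ∧ nint α q ≤ 1 / (q : ℝ) ^ τ) ∧
        Hoelder γ φ ∧ Besicovitch α φ) :=
  ⟨fun α γ γ' hα hγ hγγ hγ' h => existence α γ γ' hα hγ hγγ hγ' h,
    fun α γ φ hα hγ hγ1 hφ hB A hA => necessity α γ φ hα hγ hγ1 hφ hB A hA,
    fun γ τ hγ hγ1 hτ1 hτ => optimal γ τ hγ hγ1 hτ1 hτ⟩

end Pool.Agent.Results.MP_f73729_an.CriticalExponent
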