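import Pool.Agent.Lib.MP_f73729_an.NegMain

/-!
# Hölder continuous Besicovitch cocycles force a Diophantine condition on the rotation

If `φ` is `γ`-Hölder and the cylindrical transformation over the rotation by `α` has a dense orbit
and a discrete orbit, then `‖qα‖ ≥ c q^{-1/γ²}` for all `q ≥ 1`.  In particular there is no Hölder
continuous Besicovitch cocycle (of any exponent) over the rotation by a Liouville number.
-/

set_option autoImplicit false

namespace Pool.Agent.Results.MP_f73729_an.DiophantineCondition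

open Filter Topology

/-- The cylindrical transformation `(x, y) ↦ (x + α, y + φ x)` of `𝕋 × ℝ`. -/
noncomputable def cyl (α : ℝ) (φ : UnitAddCircle → ℝ) : Equiv.Perm (UnitAddCircle × ℝ) where
  toFun p := (p.1 + (α : UnitAddCircle), p.2 + φ p.1)
  invFun p := (p.1 - (α : UnitAddCircle), p.2 - φ (p.1 - (α : UnitAddCircle)))
  left_inv p := by ext <;> simp
  right_inv p := by ext <;> simp

/-- The two-sided orbit of `p`. -/
noncomputable def orbit (α : ℝ) (φ : UnitAddCircle → ℝ) (p : UnitAddCircle × ℝ) :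
    Set (UnitAddCircle × ℝ) :=
  Set.range fun n : ℤ => (cyl α φ ^ n) p

/-- `φ` is continuous, some orbit is dense in `𝕋 × ℝ` and some orbit has no accumulation point. -/
def Besicovitch (α : ℝ) (φ : UnitAddCircle → ℝ) : Prop :=
  Continuous φ ∧ (∃ p, Dense (orbit α φ p)) ∧ ∃ p, ∀ z, ¬ AccPt z (𝓟 (orbit α φ p))

/-- `φ` is `γ`-Hölder. -/
def Hoelder (γ : ℝ) (φ : UnitAddCircle → ℝ) : Prop :=
  ∃ C : ℝ, ∀ x x' : UnitAddCircle, |φ x - φ x'| ≤ C * ‖x - x'‖ ^ γ

theorem norm_eq (α : ℝ) (q : ℕ) :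
    ‖(((q : ℝ) * α : ℝ) : UnitAddCircle)‖ = ‖q • (α : UnitAddCircle)‖ := by
  rw [← nsmul_eq_mul, AddCircle.coe_nsmul]

theorem result (α : ℝ) (hα : Irrational α) (γ : ℝ) (hγ : 0 < γ) (hγ1 : γ ≤ 1)
    (φ : UnitAddCircle → ℝ) (hφ : Hoelder γ φ) (hB : Besicovitch α φ) :
    ∃ c > 0, ∀ q : ℕ, 0 < q →
      c / (q : ℝ) ^ (1 / γ ^ 2) ≤ ‖(((q : ℝ) * α : ℝ) : UnitAddCircle)‖ := by
  obtain ⟨c, hc, h⟩ := Lib.MP_f73729_an.negative α hα φ γ hγ hγ1 hφ ⟨hB.2.1, hB.2.2⟩
  exact ⟨c, hc, fun q hq => by rw [norm_eq]; exact h q hq⟩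

end Pool.Agent.Results.MP_f73729_an.DiophantineCondition
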