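import Pool.Agent.Lib.MP_f73729_an.Log

/-!
# Besicovitch cylindrical transformations with Hölder exponents up to one

For every irrational `α` there is a continuous `φ` on the circle such that the cylindrical
transformation over the rotation by `α` has a dense orbit and a discrete orbit, and such that `φ`
is `γ`-Hölder for every `γ < 1/τ` whenever `‖qα‖ ≥ c q^{-τ}` for all `q ≥ 1`.  If `α` is badly
approximable, `φ` has the modulus of continuity `t log² (1/t)`.  Consequences: for almost every `α`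
there is such a `φ` which is `γ`-Hölder for every `γ < 1`, and Q1 has the answer yes.

The function is `φ(x) = Σ_i (log(i+1)/i) (b_i(x - iα) - b_i(x + iα))` with tents `b_i` of half width
`w_i = min {‖mα‖ : 1 ≤ m ≤ 4i} / 2`; the Birkhoff sums at `0` are sums of non-negative
contributions of the pairs of tents and tend to `+∞` in both directions of time.
-/

set_option autoImplicit false

namespace Pool.Agent.Results.MP_f73729_an.EveryHoelderExponent

open Filter Topology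

/-- The cylindrical transformation `(x, y) ↦ (x + α, y + φ x)` of `𝕋 × ℝ`. -/
noncomputable def cyl (α : ℝ) (φ : UnitAddCircle → ℝ) : Equiv.Perm (UnitAddCircle × ℝ) where
  toFun p := (p.1 + (α : UnitAddCircle), p.2 + φ p.1)
  invFun p := (p.1 - (α : UnitAddCircle), p.2 - φ (p.1 - (α : UnitAddCircle)))
  left_inv p := by ext <;> simp
  right_inv p := by ext <;> simp

/-- The two-sided orbit of `p`. -/
noncomputable def orbit (α : ℝ) (φ : UnitAddCircle → ℝ) (p : UnitAddCircle × ℝ) :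
    Set (UnitAddCircle × ℝ) :=
  Set.range fun n : ℤ => (cyl α φ ^ n) p

/-- `φ` is continuous, some orbit is dense in `𝕋 × ℝ` and some orbit has no accumulation point. -/
def Besicovitch (α : ℝ) (φ : UnitAddCircle → ℝ) : Prop :=
  Continuous φ ∧ (∃ p, Dense (orbit α φ p)) ∧ ∃ p, ∀ z, ¬ AccPt z (𝓟 (orbit α φ p))

/-- `φ` is `γ`-Hölder. -/
def Hoelder (γ : ℝ) (φ : UnitAddCircle → ℝ) : Prop :=
  ∃ C : ℝ, ∀ x x' : UnitAddCircle, |φ x - φ x'| ≤ C * ‖x - x'‖ ^ γ

theorem norm_eq (α : ℝ) (q : ℕ) :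
    ‖(((q : ℝ) * α : ℝ) : UnitAddCircle)‖ = ‖q • (α : UnitAddCircle)‖ := by
  rw [← nsmul_eq_mul, AddCircle.coe_nsmul]

theorem result (α : ℝ) (hα : Irrational α) : ∃ φ : UnitAddCircle → ℝ, Besicovitch α φ ∧
    (∀ τ γ : ℝ, 0 < γ → γ ≤ 1 → τ * γ < 1 →
      (∃ c > 0, ∀ q : ℕ, 0 < q → c / (q : ℝ) ^ τ ≤ ‖(((q : ℝ) * α : ℝ) : UnitAddCircle)‖) →
      Hoelder γ φ) ∧
    ((∃ c > 0, ∀ q : ℕ, 0 < q → c / (q : ℝ) ≤ ‖(((q : ℝ) * α : ℝ) : UnitAddCircle)‖) →
      ∃ C : ℝ, ∀ x x' : UnitAddCircle,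
        |φ x - φ x'| ≤ C * (‖x - x'‖ * (1 + |Real.log ‖x - x'‖|) ^ 2)) := by
  obtain ⟨w, hw⟩ := Lib.MP_f73729_an.exists_wid (α : UnitAddCircle)
    (Lib.MP_f73729_an.nsmul_coe_ne_zero hα)
  have hc := hw.continuous_phi
  have hodd := Lib.MP_f73729_an.phi_neg (α : UnitAddCircle) w
  have hS := hw.tendsto_S
  refine ⟨Lib.MP_f73729_an.phi (α : UnitAddCircle) w, ⟨hc, ?_, ?_⟩, ?_, ?_⟩
  · exact Lib.MP_f73729_an.exists_dense (α : UnitAddCircle) _ hc
      (fun A B => Lib.MP_f73729_an.transitive α hα _ hc hodd hS A B)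
  · exact Lib.MP_f73729_an.exists_discrete (α : UnitAddCircle) _ hodd hS
  · rintro τ γ hγ hγ1 hτγ ⟨c, hc0, hd⟩
    simp only [norm_eq] at hd
    rcases le_or_gt 0 τ with hτ | hτ
    · exact hw.hoelder c τ γ hc0 hτ hγ hγ1 hτγ hd
    · refine hw.hoelder c 0 γ hc0 le_rfl hγ hγ1 (by linarith) (fun q hq => ?_)
      refine le_trans ?_ (hd q hq)
      have hq1 : (1 : ℝ) ≤ q := by exact_mod_cast hq
      have h1 : (q : ℝ) ^ τ ≤ (q : ℝ) ^ (0 : ℝ) :=
        Real.rpow_le_rpow_of_exponent_le hq1 hτ.le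
      apply div_le_div_of_nonneg_left hc0.le (by positivity) h1
  · rintro ⟨c, hc0, hd⟩
    simp only [norm_eq] at hd
    have hd' : ∀ q : ℕ, 0 < q → min c 1 / (q : ℝ) ≤ ‖q • (α : UnitAddCircle)‖ := by
      intro q hq
      refine le_trans ?_ (hd q hq)
      exact div_le_div_of_nonneg_right (min_le_left _ _) (by positivity)
    exact ⟨400 / min c 1, fun x x' =>
      hw.log_mod (min c 1) (lt_min hc0 one_pos) (min_le_right _ _) hd' x x'⟩

/-- For almost every `α` (Lebesgue measure) one Besicovitch `φ` is `γ`-Hölder for all `γ < 1`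
(a consequence of `result` and of Khinchin's theorem). -/
theorem almostEvery : ∀ᵐ α : ℝ, Irrational α ∧ ∃ φ : UnitAddCircle → ℝ, Besicovitch α φ ∧
    ∀ γ : ℝ, 0 < γ → γ < 1 → Hoelder γ φ := by
  filter_upwards [Lib.MP_f73729_an.ae_diophantine] with α hα
  obtain ⟨φ, h1, h2, -⟩ := result α hα.1
  refine ⟨hα.1, φ, h1, fun γ hγ hγ1 => ?_⟩
  have hτ : 1 < (1 + 1 / γ) / 2 := by
    have : 1 < 1 / γ := by rwa [lt_div_iff₀ hγ, one_mul]
    linarith
  refine h2 ((1 + 1 / γ) / 2) γ hγ hγ1.le ?_ ?_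
  · have : (1 + 1 / γ) / 2 * γ = (γ + 1) / 2 := by field_simp
    rw [this]
    linarith
  · simp only [norm_eq]
    exact hα.2 _ hτ

/-- The question of the problem file: there are an irrational `α` and a `γ`-Hölder `φ`, `γ ≥ 1/2`,
with the Besicovitch property (in fact one `φ` for all `γ < 1`). -/
theorem question : ∃ (α : ℝ) (φ : UnitAddCircle → ℝ), Irrational α ∧ Besicovitch α φ ∧
    ∀ γ : ℝ, 0 < γ → γ < 1 → Hoelder γ φ := by
  obtain ⟨α, hα, φ, h1, h2⟩ := almostEvery.exists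
  exact ⟨α, φ, hα, h1, h2⟩

end Pool.Agent.Results.MP_f73729_an.EveryHoelderExponent
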